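import Pool.Agent.MWF.Stmts

/-!
# Row RRD of squad MWF (MP_23468a_al)
-/

set_option autoImplicit false

namespace Pool.Agent.MWF.H92

open Pool.Agent.Helper14_MV Pool.Agent.Helper2_MV Pool.Agent.MWF

/-- an identity of the largest congruence preserving `P` preserves `P` in all contexts -/
theorem gaml_RR {P : List ℕ → Prop} {l l' : List ℕ} (h : RR (gaml P) l l') (f : ℕ → List ℕ)
    (p q : List ℕ) : P (p ++ l.flatMap f ++ q) ↔ P (p ++ l'.flatMap f ++ q) :=
  gaml_keep (((RR.refl p).append (h.sub f)).append (RR.refl q))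

/-- words of the form `x t x^k` -/
def PA (w : List ℕ) : Prop := ∃ k, 1 ≤ k ∧ w = [0, 1] ++ List.replicate k 0

/-- words of the form `x^k t x` -/
def PB (w : List ℕ) : Prop := PA w.reverse

theorem dual (h : RR (gaml PA) [0, 1, 0] [0, 1, 0, 0]) : RR (gaml PB) [0, 1, 0] [0, 0, 1, 0] := by
  apply RR_gaml
  intro f p q
  have h1 := gaml_RR h (fun i => (f i).reverse) q.reverse p.reverse
  have e1 : (p ++ [0, 1, 0].flatMap f ++ q).reverse =
      q.reverse ++ [0, 1, 0].flatMap (fun i => (f i).reverse) ++ p.reverse := by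
    simp [List.flatMap_cons, List.append_assoc]
  have e2 : (p ++ [0, 0, 1, 0].flatMap f ++ q).reverse =
      q.reverse ++ [0, 1, 0, 0].flatMap (fun i => (f i).reverse) ++ p.reverse := by
    simp [List.flatMap_cons, List.append_assoc]
  unfold PB
  rw [e1, e2]
  exact h1

theorem mid : RR (gaml (fun w => w = [0, 1, 0])) [0, 1, 0, 0] [0, 0, 1, 0, 0] := by
  apply RR_gaml
  intro f p q
  cases hX : f 0 with
  | nil => simp [List.flatMap_cons, hX]
  | cons c X =>
    have hc : ∀ d : ℕ, List.count d [0, 1, 0] ≤ 2 := by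
      intro d
      by_cases h0 : d = 0
      · subst h0; decide
      by_cases h1 : d = 1
      · subst h1; decide
      have h2 : d ∉ [0, 1, 0] := by simp [h0, h1]
      rw [List.count_eq_zero_of_not_mem h2]
      exact Nat.zero_le 2
    constructor
    · intro h
      exfalso
      have h1 := congrArg (List.count c) h
      have h2 := hc c
      rw [← h1] at h2
      simp only [List.flatMap_cons, List.flatMap_nil, hX, List.count_append, List.count_cons_self,
        List.append_nil] at h2
      omega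
    · intro h
      exfalso
      have h1 := congrArg (List.count c) h
      have h2 := hc c
      rw [← h1] at h2
      simp only [List.flatMap_cons, List.flatMap_nil, hX, List.count_append, List.count_cons_self,
        List.append_nil] at h2
      omega

theorem meet {v : List ℕ} (h1 : PA v) (h2 : PB v) : v = [0, 1, 0] := by
  obtain ⟨k, hk, rfl⟩ := h1
  obtain ⟨j, hj, h⟩ := h2
  obtain ⟨k, rfl⟩ : ∃ k', k = k' + 1 := ⟨k - 1, by omega⟩
  have e : ([0, 1] ++ List.replicate (k + 1) 0).reverse = 0 :: (List.replicate k 0 ++ [1, 0]) := by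
    rw [List.reverse_append, List.reverse_replicate, List.replicate_succ]
    rfl
  rw [e] at h
  have h3 : List.replicate k 0 ++ [1, 0] = 1 :: List.replicate j 0 := by
    have : 0 :: (List.replicate k 0 ++ [1, 0]) = 0 :: (1 :: List.replicate j 0) := h
    exact (List.cons.inj this).2
  cases k with
  | zero => rfl
  | succ k =>
    rw [List.replicate_succ, List.cons_append] at h3
    exact absurd (List.cons.inj h3).1 (by norm_num)

/-- **Row RRD** -/
theorem rrd (h1 : RraStmt) (h2 : RrbStmt) (h3 : OprStmt) : RrdStmt := by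
  intro β hm hap hiso
  by_contra hcon
  push Not at hcon
  obtain ⟨hn1, hn2⟩ := hcon
  obtain ⟨o1, o2, -, -⟩ := h3 β
  have hσ : β ≤ gaml PA := le_gaml fun u v huv hu => h1 β hap hiso hn2 u v huv hu
  have hisoO : Iso3 (FIC.op β) := by
    intro l hl
    have h4 := (o1 _ _).1 hl
    have h5 := hiso _ h4
    have h6 := congrArg List.reverse h5
    rw [List.reverse_reverse] at h6
    exact h6
  have hnO : ¬ RR (FIC.op β) [0, 1, 0, 0] [0, 0, 1, 0, 0] := fun h => hn1 ((o1 _ _).1 h)
  have hτ : β ≤ gaml PB := by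
    apply le_gaml
    intro u v huv hu
    refine h1 (FIC.op β) (o2 hap) hisoO hnO u.reverse v.reverse ((o1 _ _).2 ?_) hu
    rw [List.reverse_reverse, List.reverse_reverse]
    exact huv
  have s1 : RR (gaml PA) [0, 1, 0] [0, 1, 0, 0] := h2
  have t1 : RR (gaml PB) [0, 1, 0] [0, 0, 1, 0] := dual s1
  have hρ : β ≤ FIC.inf (gaml (fun w => w = [0, 1, 0])) (gaml PB) := by
    refine FIC.le_inf (le_gaml ?_) hτ
    intro u v huv hu
    rw [hu] at huv
    exact hiso v huv
  have t2 : RR (gaml PB) [0, 1, 0, 0] [0, 0, 1, 0, 0] :=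
    RR.append t1 (RR.refl [0])
  have r1 : RR (FIC.inf (gaml (fun w => w = [0, 1, 0])) (gaml PB)) [0, 1, 0, 0] [0, 0, 1, 0, 0] :=
    ⟨mid, t2⟩
  have s2 : RR (gaml PA) [0, 0, 1, 0] [0, 0, 1, 0, 0] := RR.append (RR.refl [0]) s1
  have j1 : RR (FIC.sup (FIC.inf (gaml (fun w => w = [0, 1, 0])) (gaml PB)) (gaml PA))
      [0, 1, 0] [0, 0, 1, 0] :=
    FIC.trans _ (FIC.trans _ (FIC.le_sup_right _ _ _ _ s1) (FIC.le_sup_left _ _ _ _ r1))
      (FIC.le_sup_right _ _ _ _ s2.symm)
  have := pent hm hρ hσ hτ (FIC.inf_le_right _ _) (P := fun w => w = [0, 1, 0])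
    (fun u v huv hu => (gaml_keep (P := fun w => w = [0, 1, 0]) huv.1).1 hu)
    (fun u v hu1 hu2 hu => by
      have a1 : PA u := by rw [hu]; exact ⟨1, le_rfl, rfl⟩
      have a2 : PB u := by rw [hu]; exact ⟨1, le_rfl, rfl⟩
      exact meet ((gaml_keep hu1).1 a1) ((gaml_keep hu2).1 a2)) j1 t1 rfl
  have h9 := congrArg List.length this
  simp at h9

end Pool.Agent.MWF.H92
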